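/-
Local embedding for Hardy spaces of Dirichlet series: dyadic Calderon-Zygmund stopping (SCZ).
-/
import Pool.Agent.W278.EM.Stms

set_option autoImplicit false
open Finset

namespace Pool.Agent.W704.EMCZ

open Pool.Agent.W278.EM

/-! ### finite sums -/

theorem sum_blocks {E : Type*} [AddCommMonoid E] (g : ℕ → E) (a b : ℕ) :
    ∑ x ∈ range (a * b), g x = ∑ i ∈ range a, ∑ k ∈ range b, g (i * b + k) := by
  induction a with
  | zero => simp
  | succ a ih => rw [Nat.succ_mul, sum_range_add, ih, sum_range_succ]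

theorem sum_pairs {E : Type*} [AddCommMonoid E] (g : ℕ → E) (m : ℕ) :
    ∑ x ∈ range (2 ^ (m + 1)), g x = ∑ i ∈ range (2 ^ m), (g (2 * i) + g (2 * i + 1)) := by
  rw [pow_succ, sum_blocks]
  refine sum_congr rfl fun i _ => ?_
  simp [sum_range_succ, mul_comm]

theorem sum_halves {E : Type*} [AddCommMonoid E] (g : ℕ → E) (n i : ℕ) :
    ∑ k ∈ range (2 ^ (n + 1)), g (i * 2 ^ (n + 1) + k) =
      ∑ k ∈ range (2 ^ n), g (2 * i * 2 ^ n + k) + ∑ k ∈ range (2 ^ n), g ((2 * i + 1) * 2 ^ n + k) := by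
  have h : (2 : ℕ) ^ (n + 1) = 2 ^ n + 2 ^ n := by ring
  rw [h, sum_range_add]
  congr 1
  · refine sum_congr rfl fun k _ => ?_
    congr 1; ring
  · refine sum_congr rfl fun k _ => ?_
    congr 1; ring

theorem sum_Lab (N : ℕ) (f : ℕ × ℕ → ℝ) :
    ∑ S ∈ Lab N, f S = ∑ m ∈ range N, ∑ i ∈ range (2 ^ m), f (m, i) := by
  unfold Lab
  rw [sum_filter, sum_product]
  refine sum_congr rfl fun m hm => ?_
  rw [mem_range] at hm
  rw [← sum_filter]
  refine sum_congr ?_ fun i _ => rfl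
  ext i
  simp only [mem_filter, mem_range]
  constructor
  · rintro ⟨_, h⟩; exact h
  · intro h
    exact ⟨lt_of_lt_of_le h (Nat.pow_le_pow_right (by norm_num) hm.le), h⟩

/-! ### the stopping data -/

/-- average of the norms -/
noncomputable def aa (N : ℕ) (d : ℕ → ℂ) (m i : ℕ) : ℝ :=
  (∑ k ∈ range (2 ^ (N - m)), ‖d (i * 2 ^ (N - m) + k)‖) / 2 ^ (N - m)

/-- maximal average over the ancestors -/
noncomputable def MM (N : ℕ) (d : ℕ → ℂ) : ℕ → ℕ → ℝ
  | 0, _ => aa N d 0 0
  | m + 1, i => max (MM N d m (i / 2)) (aa N d (m + 1) i)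

/-- its dyadic rounding -/
noncomputable def qq (N : ℕ) (d : ℕ → ℂ) (m i : ℕ) : ℝ := (2 : ℝ) ^ (Int.log 2 (MM N d m i))

/-- the stopping ancestor -/
noncomputable def SS (N : ℕ) (d : ℕ → ℂ) : ℕ → ℕ → ℕ × ℕ
  | 0, i => (0, i)
  | m + 1, i => if qq N d (m + 1) i = qq N d m (i / 2) then SS N d m (i / 2) else (m + 1, i)

section
variable (N : ℕ) (d : ℕ → ℂ)

theorem aa_nonneg (m i : ℕ) : 0 ≤ aa N d m i := by
  unfold aa; positivity

theorem norm_av_le (m i : ℕ) : ‖av N d m i‖ ≤ aa N d m i := by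
  unfold av aa
  rw [norm_div]
  have h : ‖(2 : ℂ) ^ (N - m)‖ = 2 ^ (N - m) := by simp
  rw [h]
  exact div_le_div_of_nonneg_right (norm_sum_le _ _) (by positivity)

theorem sub_succ {m : ℕ} (hm : m < N) : N - m = N - (m + 1) + 1 := by omega

theorem aa_split {m : ℕ} (hm : m < N) (i : ℕ) :
    aa N d m i = (aa N d (m + 1) (2 * i) + aa N d (m + 1) (2 * i + 1)) / 2 := by
  unfold aa
  rw [sub_succ N hm, sum_halves (fun x => ‖d x‖) (N - (m + 1)) i]
  field_simp
  ring

theorem av_split {m : ℕ} (hm : m < N) (i : ℕ) :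
    av N d m i = (av N d (m + 1) (2 * i) + av N d (m + 1) (2 * i + 1)) / 2 := by
  unfold av
  rw [sub_succ N hm, sum_halves d (N - (m + 1)) i]
  field_simp
  ring

theorem par {m : ℕ} (hm : m < N) (i : ℕ) :
    ‖av N d m i‖ ^ 2 + ‖hb N d m i‖ ^ 2 =
      (‖av N d (m + 1) (2 * i)‖ ^ 2 + ‖av N d (m + 1) (2 * i + 1)‖ ^ 2) / 2 := by
  rw [av_split N d hm]
  unfold hb
  have h := parallelogram_law_with_norm ℝ (av N d (m + 1) (2 * i)) (av N d (m + 1) (2 * i + 1))
  rw [norm_div, norm_div]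
  have h2 : ‖(2 : ℂ)‖ = 2 := by simp
  rw [h2]
  nlinarith [h]

theorem aa_child_le {m : ℕ} (hm : m < N) (j : ℕ) : aa N d (m + 1) j ≤ 2 * aa N d m (j / 2) := by
  have h := aa_split N d hm (j / 2)
  have h0 := aa_nonneg N d (m + 1) (2 * (j / 2))
  have h1 := aa_nonneg N d (m + 1) (2 * (j / 2) + 1)
  rcases Nat.even_or_odd' j with ⟨c, rfl | rfl⟩
  · have e : 2 * c / 2 = c := by omega
    rw [e] at h h0 h1 ⊢
    linarith
  · have e : (2 * c + 1) / 2 = c := by omega
    rw [e] at h h0 h1 ⊢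
    linarith

theorem MM_ge_root (m i : ℕ) : aa N d 0 0 ≤ MM N d m i := by
  induction m generalizing i with
  | zero => exact le_refl _
  | succ m ih => exact le_trans (ih (i / 2)) (le_max_left _ _)

theorem aa_le_MM (m i : ℕ) (hi : i < 2 ^ m) : aa N d m i ≤ MM N d m i := by
  cases m with
  | zero =>
    have : i = 0 := by simpa using hi
    subst this; exact le_refl _
  | succ m => exact le_max_right _ _

theorem SS_anc (m i : ℕ) : (SS N d m i).1 ≤ m ∧ (SS N d m i).2 = i / 2 ^ (m - (SS N d m i).1) := by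
  induction m generalizing i with
  | zero => simp [SS]
  | succ m ih =>
    unfold SS
    split_ifs with h
    · obtain ⟨h1, h2⟩ := ih (i / 2)
      refine ⟨by omega, ?_⟩
      rw [h2]
      have e : m + 1 - (SS N d m (i / 2)).1 = m - (SS N d m (i / 2)).1 + 1 := by omega
      rw [e, Nat.div_div_eq_div_mul, pow_succ, mul_comm]
    · simp

theorem qq_SS (m i : ℕ) : qq N d (SS N d m i).1 (SS N d m i).2 = qq N d m i := by
  induction m generalizing i with
  | zero => simp [SS]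
  | succ m ih =>
    unfold SS
    split_ifs with h
    · rw [ih, h]
    · rfl

theorem SS_SS (m i : ℕ) : SS N d (SS N d m i).1 (SS N d m i).2 = SS N d m i := by
  induction m generalizing i with
  | zero => simp [SS]
  | succ m ih =>
    by_cases h : qq N d (m + 1) i = qq N d m (i / 2)
    · have e : SS N d (m + 1) i = SS N d m (i / 2) := by
        rw [SS, if_pos h]
      rw [e]; exact ih _
    · have e : SS N d (m + 1) i = (m + 1, i) := by
        rw [SS, if_neg h]
      rw [e]; exact e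

end

section
variable {N : ℕ} {d : ℕ → ℂ} (h0 : 0 < aa N d 0 0)
include h0

theorem MM_pos (m i : ℕ) : 0 < MM N d m i := lt_of_lt_of_le h0 (MM_ge_root N d m i)

omit h0 in
theorem qq_pos (m i : ℕ) : 0 < qq N d m i := by unfold qq; positivity

theorem qq_le (m i : ℕ) : qq N d m i ≤ MM N d m i := by
  have := Int.zpow_log_le_self (b := 2) (by norm_num) (MM_pos h0 m i)
  simpa [qq] using this

omit h0 in
theorem MM_le (m i : ℕ) : MM N d m i ≤ 2 * qq N d m i := by
  have := Int.lt_zpow_succ_log_self (b := 2) (by norm_num) (MM N d m i)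
  unfold qq
  rw [zpow_add_one₀ (by norm_num)] at this
  push_cast at this
  linarith

theorem qq_step (m i : ℕ) : qq N d (m + 1) i = qq N d m (i / 2) ∨
    2 * qq N d m (i / 2) ≤ qq N d (m + 1) i := by
  have hle : MM N d m (i / 2) ≤ MM N d (m + 1) i := le_max_left _ _
  have hlog := Int.log_mono_right (b := 2) (MM_pos h0 m (i / 2)) hle
  rcases hlog.eq_or_lt with h | h
  · left; unfold qq; rw [h]
  · right
    unfold qq
    have : (2 : ℝ) ^ (Int.log 2 (MM N d m (i / 2)) + 1) ≤ 2 ^ (Int.log 2 (MM N d (m + 1) i)) :=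
      zpow_le_zpow_right₀ (by norm_num) (by omega)
    rw [zpow_add_one₀ (by norm_num)] at this
    linarith

theorem aa_of_stop (m i : ℕ) (hi : i < 2 ^ m) (hs : SS N d m i = (m, i)) :
    qq N d m i ≤ aa N d m i := by
  cases m with
  | zero =>
    have : i = 0 := by simpa using hi
    subst this; exact qq_le h0 0 0
  | succ m =>
    have hne : qq N d (m + 1) i ≠ qq N d m (i / 2) := by
      intro h
      have e : SS N d (m + 1) i = SS N d m (i / 2) := by rw [SS, if_pos h]
      have := (SS_anc N d m (i / 2)).1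
      rw [← e, hs] at this
      simp at this
    have hM : MM N d (m + 1) i = aa N d (m + 1) i := by
      have hd : MM N d (m + 1) i = max (MM N d m (i / 2)) (aa N d (m + 1) i) := rfl
      rcases max_choice (MM N d m (i / 2)) (aa N d (m + 1) i) with h | h
      · exfalso; apply hne; unfold qq; rw [hd, h]
      · rw [hd, h]
    rw [← hM]
    exact qq_le h0 _ _

/-! ### the mass of a stopping interval -/

omit h0 in
theorem bound_level (m i : ℕ) (hi : i < 2 ^ m) : ‖av N d m i‖ ^ 2 ≤ 16 * qq N d m i ^ 2 := by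
  have h1 := norm_av_le N d m i
  have h2 := aa_le_MM N d m i hi
  have h3 := MM_le (N := N) (d := d) m i
  have h4 := qq_pos (N := N) (d := d) m i
  have h5 : ‖av N d m i‖ ≤ 4 * qq N d m i := by linarith
  nlinarith [norm_nonneg (av N d m i)]

omit h0 in
theorem bound_child (m j : ℕ) (hm : m < N) (hj : j < 2 ^ (m + 1)) :
    ‖av N d (m + 1) j‖ ^ 2 ≤ 16 * qq N d m (j / 2) ^ 2 := by
  have h1 := norm_av_le N d (m + 1) j
  have h2 := aa_child_le N d hm j
  have h3 := aa_le_MM N d m (j / 2) (by rw [pow_succ] at hj; omega)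
  have h4 := MM_le (N := N) (d := d) m (j / 2)
  have h6 := qq_pos (N := N) (d := d) m (j / 2)
  have h5 : ‖av N d (m + 1) j‖ ≤ 4 * qq N d m (j / 2) := by linarith
  nlinarith [norm_nonneg (av N d (m + 1) j)]

omit h0 in
theorem mass_aux (S : ℕ × ℕ) (t m : ℕ) (hmt : m + t = N) (hS : S.1 ≤ m) :
    ∑ m' ∈ Ico m N, ∑ i ∈ range (2 ^ m'),
      (if SS N d m' i = S then ‖hb N d m' i‖ ^ 2 / 2 ^ m' else 0) ≤
    ∑ i ∈ range (2 ^ m), if SS N d m i = S then
      (16 * qq N d S.1 S.2 ^ 2 - ‖av N d m i‖ ^ 2) / 2 ^ m else 0 := by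
  induction t generalizing m with
  | zero =>
    have e : m = N := by omega
    subst e
    rw [Ico_self, sum_empty]
    refine sum_nonneg fun i hi => ?_
    split_ifs with h
    · have h1 := bound_level (N := m) (d := d) m i (mem_range.mp hi)
      have h2 := qq_SS m d m i
      rw [h] at h2
      rw [h2]
      apply div_nonneg _ (by positivity)
      linarith
    · exact le_refl _
  | succ t ih =>
    have hm : m < N := by omega
    rw [sum_eq_sum_Ico_succ_bot hm]
    have h1 := ih (m + 1) (by omega) (by omega)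
    have h2 : ∑ j ∈ range (2 ^ (m + 1)), (if SS N d (m + 1) j = S then
        (16 * qq N d S.1 S.2 ^ 2 - ‖av N d (m + 1) j‖ ^ 2) / 2 ^ (m + 1) else 0) ≤
        ∑ j ∈ range (2 ^ (m + 1)), (if SS N d m (j / 2) = S then
        (16 * qq N d S.1 S.2 ^ 2 - ‖av N d (m + 1) j‖ ^ 2) / 2 ^ (m + 1) else 0) := by
      refine sum_le_sum fun j hj => ?_
      by_cases hA : SS N d (m + 1) j = S
      · have hB : SS N d m (j / 2) = S := by
          rw [SS] at hA
          split_ifs at hA with hq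
          · exact hA
          · exfalso; rw [← hA] at hS; simp at hS
        rw [if_pos hA, if_pos hB]
      · rw [if_neg hA]
        split_ifs with hB
        · have h3 := bound_child (N := N) (d := d) m j hm (mem_range.mp hj)
          have h4 := qq_SS N d m (j / 2)
          rw [hB] at h4
          rw [h4]
          apply div_nonneg _ (by positivity)
          linarith
        · exact le_refl _
    have h3 := le_trans h1 h2
    rw [sum_pairs] at h3
    have h5 : ∑ i ∈ range (2 ^ m), ((if SS N d m (2 * i / 2) = S then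
        (16 * qq N d S.1 S.2 ^ 2 - ‖av N d (m + 1) (2 * i)‖ ^ 2) / 2 ^ (m + 1) else 0) +
        (if SS N d m ((2 * i + 1) / 2) = S then
        (16 * qq N d S.1 S.2 ^ 2 - ‖av N d (m + 1) (2 * i + 1)‖ ^ 2) / 2 ^ (m + 1) else 0)) +
        ∑ i ∈ range (2 ^ m), (if SS N d m i = S then ‖hb N d m i‖ ^ 2 / 2 ^ m else 0) =
        ∑ i ∈ range (2 ^ m), if SS N d m i = S then
          (16 * qq N d S.1 S.2 ^ 2 - ‖av N d m i‖ ^ 2) / 2 ^ m else 0 := by
      rw [← sum_add_distrib]
      refine sum_congr rfl fun i _ => ?_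
      have e1 : 2 * i / 2 = i := by omega
      have e2 : (2 * i + 1) / 2 = i := by omega
      rw [e1, e2]
      split_ifs with h
      · have h6 := par N d hm i
        have h7 : ‖av N d m i‖ ^ 2 = (‖av N d (m + 1) (2 * i)‖ ^ 2 +
          ‖av N d (m + 1) (2 * i + 1)‖ ^ 2) / 2 - ‖hb N d m i‖ ^ 2 := by linarith
        rw [h7, pow_succ]
        field_simp
        ring
      · simp
    linarith

omit h0 in
theorem mass_le (S : ℕ × ℕ) (hS : S.1 ≤ N) :
    ∑ m ∈ range N, ∑ i ∈ range (2 ^ m),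
      (if SS N d m i = S then ‖hb N d m i‖ ^ 2 / 2 ^ m else 0) ≤
    16 * qq N d S.1 S.2 ^ 2 / 2 ^ S.1 := by
  rw [range_eq_Ico, ← sum_Ico_consecutive _ (Nat.zero_le S.1) hS]
  have h1 : ∑ m ∈ Ico 0 S.1, ∑ i ∈ range (2 ^ m),
      (if SS N d m i = S then ‖hb N d m i‖ ^ 2 / 2 ^ m else 0) = 0 := by
    refine sum_eq_zero fun m hm => sum_eq_zero fun i _ => ?_
    rw [if_neg]
    intro h
    have := (SS_anc N d m i).1
    rw [h] at this
    have := (mem_Ico.mp hm).2
    omega
  rw [h1, zero_add]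
  refine le_trans (mass_aux S (N - S.1) S.1 (by omega) le_rfl) ?_
  have h2 : ∀ i ∈ range (2 ^ S.1), (if SS N d S.1 i = S then
      (16 * qq N d S.1 S.2 ^ 2 - ‖av N d S.1 i‖ ^ 2) / 2 ^ S.1 else 0) ≤
      if i = S.2 then 16 * qq N d S.1 S.2 ^ 2 / 2 ^ S.1 else 0 := by
    intro i _
    by_cases h : SS N d S.1 i = S
    · have h3 := (SS_anc N d S.1 i).2
      rw [h] at h3
      simp at h3
      rw [if_pos h, if_pos h3.symm]
      apply div_le_div_of_nonneg_right _ (by positivity)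
      have := sq_nonneg ‖av N d S.1 i‖
      linarith
    · rw [if_neg h]
      split_ifs
      · positivity
      · exact le_refl _
  refine le_trans (sum_le_sum h2) ?_
  rw [sum_ite_eq']
  split_ifs
  · exact le_refl _
  · positivity

omit h0 in
/-- the bound for one label -/
theorem lam_le (r : ℝ) (hr : 1 < r) (S : ℕ × ℕ) (hS : S.1 ≤ N) :
    (2 : ℝ) ^ (-(S.1 : ℝ) * (1 - r / 2)) *
    (∑ m ∈ range N, ∑ i ∈ range (2 ^ m),
      if SS N d m i = S then ‖hb N d m i‖ ^ 2 / 2 ^ m else 0) ^ (r / 2) ≤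
    if SS N d S.1 S.2 = S then 16 ^ (r / 2) * qq N d S.1 S.2 ^ r / 2 ^ S.1 else 0 := by
  split_ifs with h
  · have h1 := mass_le (N := N) (d := d) S hS
    have hn : 0 ≤ ∑ m ∈ range N, ∑ i ∈ range (2 ^ m),
        (if SS N d m i = S then ‖hb N d m i‖ ^ 2 / 2 ^ m else 0) := by
      refine sum_nonneg fun m _ => sum_nonneg fun i _ => ?_
      split_ifs
      · positivity
      · exact le_refl _
    have hq := qq_pos (N := N) (d := d) S.1 S.2
    have h2 := Real.rpow_le_rpow hn h1 (by linarith : (0 : ℝ) ≤ r / 2)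
    refine le_trans (mul_le_mul_of_nonneg_left h2 (by positivity)) (le_of_eq ?_)
    rw [Real.div_rpow (by positivity) (by positivity), Real.mul_rpow (by norm_num) (by positivity)]
    have e1 : (qq N d S.1 S.2 ^ 2) ^ (r / 2) = qq N d S.1 S.2 ^ r := by
      rw [← Real.rpow_natCast, ← Real.rpow_mul hq.le]
      congr 1; push_cast; ring
    have e2 : ((2 : ℝ) ^ S.1) ^ (r / 2) = 2 ^ ((S.1 : ℝ) * (r / 2)) := by
      rw [← Real.rpow_natCast, ← Real.rpow_mul (by norm_num)]
    have e3 : (2 : ℝ) ^ S.1 = 2 ^ (S.1 : ℝ) := by rw [Real.rpow_natCast]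
    rw [e1, e2, e3]
    have e4 : (2 : ℝ) ^ (-(S.1 : ℝ) * (1 - r / 2)) = 2 ^ ((S.1 : ℝ) * (r / 2)) / 2 ^ (S.1 : ℝ) := by
      rw [← Real.rpow_sub (by norm_num)]
      congr 1; ring
    rw [e4]
    field_simp
  · have hz : ∑ m ∈ range N, ∑ i ∈ range (2 ^ m),
        (if SS N d m i = S then ‖hb N d m i‖ ^ 2 / 2 ^ m else 0) = 0 := by
      refine sum_eq_zero fun m _ => sum_eq_zero fun i _ => ?_
      rw [if_neg]
      intro h'
      apply h
      have := SS_SS N d m i
      rwa [h'] at this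
    rw [hz, Real.zero_rpow (by linarith), mul_zero]

/-! ### the total -/

/-- one leaf -/
theorem path_aux (r : ℝ) (hr : 1 < r) (y : ℝ) (hy : 0 ≤ y) (x m : ℕ) (hm : m ≤ N) :
    ∑ m' ∈ range (m + 1), (if SS N d m' (x / 2 ^ (N - m')) = (m', x / 2 ^ (N - m')) ∧
      qq N d m' (x / 2 ^ (N - m')) < y then qq N d m' (x / 2 ^ (N - m')) ^ (r - 1) else 0) ≤
    (1 - 2 ^ (-(r - 1)))⁻¹ * min (qq N d m (x / 2 ^ (N - m)) ^ (r - 1)) (y ^ (r - 1)) := by
  have hc0 : (2 : ℝ) ^ (-(r - 1)) < 1 :=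
    Real.rpow_lt_one_of_one_lt_of_neg (by norm_num) (by linarith)
  have hc1 : (0 : ℝ) < 2 ^ (-(r - 1)) := by positivity
  set ρ : ℝ := 2 ^ (-(r - 1)) with hρ
  set c : ℝ := (1 - ρ)⁻¹ with hc
  have hcpos : 0 < c := inv_pos.mpr (by linarith)
  have hc2 : c * ρ + 1 = c := by
    have hne : 1 - ρ ≠ 0 := by linarith
    rw [hc]; field_simp; ring
  have hcge : 1 ≤ c := by nlinarith
  induction m with
  | zero =>
    rw [zero_add, sum_range_one]
    have hq := qq_pos (N := N) (d := d) 0 (x / 2 ^ (N - 0))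
    split_ifs with h
    · rw [mul_min_of_nonneg _ _ hcpos.le]
      have h1 : qq N d 0 (x / 2 ^ (N - 0)) ^ (r - 1) ≤ y ^ (r - 1) :=
        Real.rpow_le_rpow hq.le h.2.le (by linarith)
      have h2 : 0 ≤ qq N d 0 (x / 2 ^ (N - 0)) ^ (r - 1) := by positivity
      apply le_min <;> nlinarith
    · positivity
  | succ m ih =>
    have ih' := ih (by omega)
    rw [sum_range_succ]
    have e : x / 2 ^ (N - m) = x / 2 ^ (N - (m + 1)) / 2 := by
      rw [Nat.div_div_eq_div_mul, ← pow_succ]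
      congr 2; omega
    rw [e] at ih'
    set i := x / 2 ^ (N - (m + 1)) with hi
    have hq := qq_pos (N := N) (d := d) m (i / 2)
    have hq' := qq_pos (N := N) (d := d) (m + 1) i
    rcases qq_step h0 m i with h | h
    · have hs : ¬ (SS N d (m + 1) i = (m + 1, i) ∧ qq N d (m + 1) i < y) := by
        rintro ⟨hs, -⟩
        have e : SS N d (m + 1) i = SS N d m (i / 2) := by rw [SS, if_pos h]
        have := (SS_anc N d m (i / 2)).1
        rw [← e, hs] at this
        simp at this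
      rw [if_neg hs, add_zero, h]
      exact ih'
    · have h1 : (2 * qq N d m (i / 2)) ^ (r - 1) ≤ qq N d (m + 1) i ^ (r - 1) :=
        Real.rpow_le_rpow (by positivity) h (by linarith)
      rw [Real.mul_rpow (by norm_num) hq.le] at h1
      have h2 : qq N d m (i / 2) ^ (r - 1) ≤ ρ * qq N d (m + 1) i ^ (r - 1) := by
        have e2 : ρ * (2 : ℝ) ^ (r - 1) = 1 := by
          rw [hρ, ← Real.rpow_add (by norm_num)]; simp
        calc qq N d m (i / 2) ^ (r - 1) = ρ * (2 ^ (r - 1) * qq N d m (i / 2) ^ (r - 1)) := by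
              rw [← mul_assoc, e2, one_mul]
          _ ≤ _ := mul_le_mul_of_nonneg_left h1 hc1.le
      have h3 : 0 ≤ qq N d (m + 1) i ^ (r - 1) := by positivity
      have h4 : 0 ≤ qq N d m (i / 2) ^ (r - 1) := by positivity
      have h5 : 0 ≤ y ^ (r - 1) := by positivity
      split_ifs with hs
      · have h6 : qq N d (m + 1) i ^ (r - 1) ≤ y ^ (r - 1) :=
          Real.rpow_le_rpow hq'.le hs.2.le (by linarith)
        rw [min_eq_left h6]
        have h7 : c * min (qq N d m (i / 2) ^ (r - 1)) (y ^ (r - 1)) ≤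
            c * (ρ * qq N d (m + 1) i ^ (r - 1)) :=
          mul_le_mul_of_nonneg_left (le_trans (min_le_left _ _) h2) hcpos.le
        calc _ ≤ c * (ρ * qq N d (m + 1) i ^ (r - 1)) + qq N d (m + 1) i ^ (r - 1) := by linarith
          _ = (c * ρ + 1) * qq N d (m + 1) i ^ (r - 1) := by ring
          _ = _ := by rw [hc2]
      · rw [add_zero]
        refine le_trans ih' (mul_le_mul_of_nonneg_left (min_le_min ?_ le_rfl) hcpos.le)
        have : ρ * qq N d (m + 1) i ^ (r - 1) ≤ qq N d (m + 1) i ^ (r - 1) := by nlinarith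
        linarith

theorem path_le (r : ℝ) (hr : 1 < r) (y : ℝ) (hy : 0 ≤ y) (x : ℕ) :
    ∑ m ∈ range N, (if SS N d m (x / 2 ^ (N - m)) = (m, x / 2 ^ (N - m)) ∧
      qq N d m (x / 2 ^ (N - m)) < y then qq N d m (x / 2 ^ (N - m)) ^ (r - 1) else 0) ≤
    (1 - 2 ^ (-(r - 1)))⁻¹ * y ^ (r - 1) := by
  have hc0 : (2 : ℝ) ^ (-(r - 1)) < 1 :=
    Real.rpow_lt_one_of_one_lt_of_neg (by norm_num) (by linarith)
  have hcpos : 0 < (1 - (2 : ℝ) ^ (-(r - 1)))⁻¹ := inv_pos.mpr (by linarith)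
  refine le_trans ?_ (le_trans (path_aux h0 r hr y hy x N le_rfl)
    (mul_le_mul_of_nonneg_left (min_le_right _ _) hcpos.le))
  refine sum_le_sum_of_subset_of_nonneg (range_subset_range.mpr (Nat.le_succ N)) ?_
  intro m _ _
  have := qq_pos (N := N) (d := d) m (x / 2 ^ (N - m))
  split_ifs
  · positivity
  · exact le_refl _

/-- one stopping interval -/
theorem stop_le (r : ℝ) (m i : ℕ) (hm : m < N) (hi : i < 2 ^ m)
    (hs : SS N d m i = (m, i)) :
    qq N d m i ^ r / 2 ^ m ≤ 2 / 2 ^ N * ∑ k ∈ range (2 ^ (N - m)),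
      if qq N d m i < 2 * ‖d (i * 2 ^ (N - m) + k)‖ then
        qq N d m i ^ (r - 1) * ‖d (i * 2 ^ (N - m) + k)‖ else 0 := by
  have hq := qq_pos (N := N) (d := d) m i
  have h1 := aa_of_stop h0 m i hi hs
  unfold aa at h1
  rw [le_div_iff₀ (by positivity)] at h1
  have h2 : ∑ k ∈ range (2 ^ (N - m)), ‖d (i * 2 ^ (N - m) + k)‖ ≤
      ∑ k ∈ range (2 ^ (N - m)), (if qq N d m i < 2 * ‖d (i * 2 ^ (N - m) + k)‖ then
        ‖d (i * 2 ^ (N - m) + k)‖ else 0) + 2 ^ (N - m) * (qq N d m i / 2) := by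
    have e : (2 : ℝ) ^ (N - m) * (qq N d m i / 2) =
        ∑ k ∈ range (2 ^ (N - m)), qq N d m i / 2 := by
      rw [sum_const, card_range, nsmul_eq_mul]; push_cast; ring
    rw [e, ← sum_add_distrib]
    refine sum_le_sum fun k _ => ?_
    split_ifs with h
    · linarith
    · rw [not_lt] at h; linarith
  have h3 : 2 ^ (N - m) * qq N d m i ≤ 2 * ∑ k ∈ range (2 ^ (N - m)),
      (if qq N d m i < 2 * ‖d (i * 2 ^ (N - m) + k)‖ then
        ‖d (i * 2 ^ (N - m) + k)‖ else 0) := by linarith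
  have e1 : ∑ k ∈ range (2 ^ (N - m)),
      (if qq N d m i < 2 * ‖d (i * 2 ^ (N - m) + k)‖ then
        qq N d m i ^ (r - 1) * ‖d (i * 2 ^ (N - m) + k)‖ else 0) = qq N d m i ^ (r - 1) *
      ∑ k ∈ range (2 ^ (N - m)), (if qq N d m i < 2 * ‖d (i * 2 ^ (N - m) + k)‖ then
        ‖d (i * 2 ^ (N - m) + k)‖ else 0) := by
    rw [mul_sum]
    refine sum_congr rfl fun k _ => ?_
    split_ifs <;> ring
  rw [e1]
  have e2 : qq N d m i ^ r = qq N d m i ^ (r - 1) * qq N d m i := by
    rw [← Real.rpow_add_one hq.ne']; congr 1; ring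
  have e3 : (2 : ℝ) ^ N = 2 ^ m * 2 ^ (N - m) := by
    rw [← pow_add]; congr 1; omega
  rw [e2, e3]
  have hpos : 0 ≤ qq N d m i ^ (r - 1) := by positivity
  have h4 := mul_le_mul_of_nonneg_left h3 hpos
  rw [div_le_iff₀ (by positivity)]
  calc qq N d m i ^ (r - 1) * qq N d m i
      = (qq N d m i ^ (r - 1) * (2 ^ (N - m) * qq N d m i)) / 2 ^ (N - m) := by field_simp
    _ ≤ (qq N d m i ^ (r - 1) * (2 * ∑ k ∈ range (2 ^ (N - m)),
      (if qq N d m i < 2 * ‖d (i * 2 ^ (N - m) + k)‖ then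
        ‖d (i * 2 ^ (N - m) + k)‖ else 0))) / 2 ^ (N - m) := by
        apply div_le_div_of_nonneg_right h4 (by positivity)
    _ = _ := by field_simp

theorem total_le (r : ℝ) (hr : 1 < r) :
    ∑ m ∈ range N, ∑ i ∈ range (2 ^ m),
      (if SS N d m i = (m, i) then 16 ^ (r / 2) * qq N d m i ^ r / 2 ^ m else 0) ≤
    16 ^ (r / 2) * 2 * ((1 - 2 ^ (-(r - 1)))⁻¹ * 2 ^ (r - 1)) *
      (∑ x ∈ range (2 ^ N), ‖d x‖ ^ r) / 2 ^ N := by
  have step1 : ∀ m ∈ range N, ∑ i ∈ range (2 ^ m),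
      (if SS N d m i = (m, i) then 16 ^ (r / 2) * qq N d m i ^ r / 2 ^ m else 0) ≤
      16 ^ (r / 2) * (2 / 2 ^ N) * ∑ x ∈ range (2 ^ N),
        ‖d x‖ * (if SS N d m (x / 2 ^ (N - m)) = (m, x / 2 ^ (N - m)) ∧
          qq N d m (x / 2 ^ (N - m)) < 2 * ‖d x‖ then
          qq N d m (x / 2 ^ (N - m)) ^ (r - 1) else 0) := by
    intro m hm
    rw [mem_range] at hm
    have e : (2 : ℕ) ^ N = 2 ^ m * 2 ^ (N - m) := by
      rw [← pow_add]; congr 1; omega
    rw [e, sum_blocks, mul_sum]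
    refine sum_le_sum fun i hi => ?_
    rw [mem_range] at hi
    have e2 : ∀ k ∈ range (2 ^ (N - m)), (i * 2 ^ (N - m) + k) / 2 ^ (N - m) = i := by
      intro k hk
      rw [mem_range] at hk
      rw [mul_comm, Nat.mul_add_div (by positivity), Nat.div_eq_of_lt hk, add_zero]
    have e3 : ∑ k ∈ range (2 ^ (N - m)), ‖d (i * 2 ^ (N - m) + k)‖ *
        (if SS N d m ((i * 2 ^ (N - m) + k) / 2 ^ (N - m)) =
          (m, (i * 2 ^ (N - m) + k) / 2 ^ (N - m)) ∧
          qq N d m ((i * 2 ^ (N - m) + k) / 2 ^ (N - m)) < 2 * ‖d (i * 2 ^ (N - m) + k)‖ then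
          qq N d m ((i * 2 ^ (N - m) + k) / 2 ^ (N - m)) ^ (r - 1) else 0) =
        ∑ k ∈ range (2 ^ (N - m)), ‖d (i * 2 ^ (N - m) + k)‖ *
        (if SS N d m i = (m, i) ∧
          qq N d m i < 2 * ‖d (i * 2 ^ (N - m) + k)‖ then
          qq N d m i ^ (r - 1) else 0) :=
      sum_congr rfl fun k hk => by rw [e2 k hk]
    rw [e3]
    split_ifs with hs
    · have h := stop_le h0 r m i hm hi hs
      have hp : (0 : ℝ) ≤ 16 ^ (r / 2) := by positivity
      have h' := mul_le_mul_of_nonneg_left h hp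
      calc 16 ^ (r / 2) * qq N d m i ^ r / 2 ^ m = 16 ^ (r / 2) * (qq N d m i ^ r / 2 ^ m) := by
            ring
        _ ≤ _ := h'
        _ = _ := by
            rw [← mul_assoc]
            congr 1
            refine sum_congr rfl fun k _ => ?_
            by_cases hk : qq N d m i < 2 * ‖d (i * 2 ^ (N - m) + k)‖
            · rw [if_pos hk, if_pos ⟨hs, hk⟩]; ring
            · rw [if_neg hk, if_neg (fun h => hk h.2)]; ring
    · refine mul_nonneg (by positivity) (sum_nonneg fun k _ => ?_)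
      rw [if_neg (fun h => hs h.1), mul_zero]
  refine le_trans (sum_le_sum step1) ?_
  rw [← mul_sum, sum_comm]
  have step2 : ∀ x ∈ range (2 ^ N), ∑ m ∈ range N, ‖d x‖ *
      (if SS N d m (x / 2 ^ (N - m)) = (m, x / 2 ^ (N - m)) ∧
          qq N d m (x / 2 ^ (N - m)) < 2 * ‖d x‖ then
          qq N d m (x / 2 ^ (N - m)) ^ (r - 1) else 0) ≤
      ((1 - 2 ^ (-(r - 1)))⁻¹ * 2 ^ (r - 1)) * ‖d x‖ ^ r := by
    intro x _
    rw [← mul_sum]
    have h := path_le h0 r hr (2 * ‖d x‖) (by positivity) x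
    refine le_trans (mul_le_mul_of_nonneg_left h (norm_nonneg _)) (le_of_eq ?_)
    rw [Real.mul_rpow (by norm_num) (norm_nonneg _)]
    have e : ‖d x‖ ^ r = ‖d x‖ ^ (r - 1) * ‖d x‖ := by
      rcases (norm_nonneg (d x)).eq_or_lt with h | h
      · rw [← h, Real.zero_rpow (by linarith), mul_zero]
      · rw [← Real.rpow_add_one h.ne']; congr 1; ring
    rw [e]; ring
  refine le_trans (mul_le_mul_of_nonneg_left (sum_le_sum step2) (by positivity)) (le_of_eq ?_)
  rw [← mul_sum]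
  ring

end

/-- Calderon-Zygmund stopping -/
theorem scz : SCZ := by
  intro r hr _
  have hc0 : (2 : ℝ) ^ (-(r - 1)) < 1 :=
    Real.rpow_lt_one_of_one_lt_of_neg (by norm_num) (by linarith)
  have hcpos : 0 < (1 - (2 : ℝ) ^ (-(r - 1)))⁻¹ := inv_pos.mpr (by linarith)
  refine ⟨16 ^ (r / 2) * 2 * ((1 - 2 ^ (-(r - 1)))⁻¹ * 2 ^ (r - 1)), by positivity, ?_⟩
  intro N d
  by_cases h0 : 0 < aa N d 0 0
  · refine ⟨SS N d, fun S => (2 : ℝ) ^ (-(S.1 : ℝ) * (1 - r / 2)) *
      (∑ m ∈ range N, ∑ i ∈ range (2 ^ m),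
        if SS N d m i = S then ‖hb N d m i‖ ^ 2 / 2 ^ m else 0) ^ (r / 2), ?_⟩
    refine ⟨fun m i _ _ => SS_anc N d m i, fun S => ?_, fun S => le_rfl, ?_⟩
    · apply mul_nonneg (by positivity)
      apply Real.rpow_nonneg
      refine sum_nonneg fun m _ => sum_nonneg fun i _ => ?_
      split_ifs
      · positivity
      · exact le_refl _
    · rw [sum_Lab]
      refine le_trans (sum_le_sum fun m hm => sum_le_sum fun i _ => ?_) (total_le h0 r hr)
      exact lam_le r hr (m, i) (mem_range.mp hm).le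
  · have hz : ∀ x < 2 ^ N, d x = 0 := by
      intro x hx
      have h1 : aa N d 0 0 = 0 := le_antisymm (not_lt.mp h0) (aa_nonneg N d 0 0)
      unfold aa at h1
      rw [div_eq_zero_iff] at h1
      rcases h1 with h1 | h1
      · rw [sum_eq_zero_iff_of_nonneg (fun _ _ => norm_nonneg _)] at h1
        have := h1 x (by simpa using hx)
        simpa using this
      · exfalso; revert h1; positivity
    have hav : ∀ m i, m ≤ N → i < 2 ^ m → av N d m i = 0 := by
      intro m i hm hi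
      unfold av
      rw [sum_eq_zero, zero_div]
      intro k hk
      rw [mem_range] at hk
      apply hz
      have e : (2 : ℕ) ^ N = 2 ^ m * 2 ^ (N - m) := by
        rw [← pow_add]; congr 1; omega
      calc i * 2 ^ (N - m) + k < i * 2 ^ (N - m) + 2 ^ (N - m) := by omega
        _ = (i + 1) * 2 ^ (N - m) := by ring
        _ ≤ 2 ^ m * 2 ^ (N - m) := Nat.mul_le_mul_right _ hi
        _ = 2 ^ N := e.symm
    have hhb : ∀ m i, m < N → i < 2 ^ m → hb N d m i = 0 := by
      intro m i hm hi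
      have hp : (2 : ℕ) ^ (m + 1) = 2 * 2 ^ m := by ring
      unfold hb
      rw [hav (m + 1) (2 * i) (by omega) (by omega), hav (m + 1) (2 * i + 1) (by omega) (by omega)]
      simp
    refine ⟨fun m i => (m, i), fun _ => 0, ⟨fun m i _ _ => by simp, fun _ => le_rfl, ?_, ?_⟩⟩
    · intro S
      have : ∑ m ∈ range N, ∑ i ∈ range (2 ^ m),
          (if ((m, i) : ℕ × ℕ) = S then ‖hb N d m i‖ ^ 2 / 2 ^ m else 0) = 0 := by
        refine sum_eq_zero fun m hm => sum_eq_zero fun i hi => ?_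
        rw [hhb m i (mem_range.mp hm) (mem_range.mp hi)]
        simp
      rw [this, Real.zero_rpow (by linarith), mul_zero]
    · rw [sum_const_zero]
      positivity

end Pool.Agent.W704.EMCZ
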