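/-
Local embedding for Hardy spaces of Dirichlet series: relabelled sums (SSumI, SSumII).
-/
import Pool.Agent.W704.EM.CZ

set_option autoImplicit false
open Finset

namespace Pool.Agent.W704.EMS

open Pool.Agent.W278.EM Pool.Agent.W704.EMCZ

theorem sum_inj_le {ι κ : Type*} [DecidableEq κ] (s : Finset ι) (t : Finset κ) (P : ι → Prop)
    [DecidablePred P] (φ : ι → κ) (F : κ → ℝ) (hF : ∀ k ∈ t, 0 ≤ F k)
    (hmap : ∀ i ∈ s, P i → φ i ∈ t)
    (hinj : ∀ i ∈ s, P i → ∀ i' ∈ s, P i' → φ i = φ i' → i = i') :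
    ∑ i ∈ s, (if P i then F (φ i) else 0) ≤ ∑ k ∈ t, F k := by
  rw [← sum_filter]
  have h1 : ∑ i ∈ s.filter P, F (φ i) = ∑ k ∈ (s.filter P).image φ, F k := by
    rw [sum_image]
    intro i hi i' hi' h
    have h2 := mem_filter.mp (Finset.mem_coe.mp hi)
    have h3 := mem_filter.mp (Finset.mem_coe.mp hi')
    exact hinj i h2.1 h2.2 i' h3.1 h3.2 h
  rw [h1]
  refine sum_le_sum_of_subset_of_nonneg ?_ (fun k hk _ => hF k hk)
  intro k hk
  obtain ⟨i, hi, rfl⟩ := mem_image.mp hk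
  have h2 := mem_filter.mp hi
  exact hmap i h2.1 h2.2

/-- the inner sum of the mass -/
noncomputable def TS (N : ℕ) (β : ℕ → ℕ → ℂ) (Sf : ℕ → ℕ → ℕ × ℕ) (S : ℕ × ℕ) : ℝ :=
  ∑ m ∈ range N, ∑ i ∈ range (2 ^ m), if Sf m i = S then ‖β m i‖ ^ 2 / 2 ^ m else 0

theorem TS_nonneg (N : ℕ) (β : ℕ → ℕ → ℂ) (Sf : ℕ → ℕ → ℕ × ℕ) (S : ℕ × ℕ) : 0 ≤ TS N β Sf S := by
  unfold TS
  refine sum_nonneg fun m _ => sum_nonneg fun i _ => ?_
  split_ifs
  · positivity
  · exact le_refl _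

theorem Sf_mem {r : ℝ} {N : ℕ} {β : ℕ → ℕ → ℂ} {Sf : ℕ → ℕ → ℕ × ℕ} {lam : ℕ × ℕ → ℝ} {Λ : ℝ}
    (h : Stop r N β Sf lam Λ) (m i : ℕ) (hm : m < N) (hi : i < 2 ^ m) : Sf m i ∈ Lab N := by
  obtain ⟨h1, h2⟩ := h.anc m i hm hi
  unfold Lab
  rw [mem_filter, mem_product, mem_range, mem_range]
  have h3 : (Sf m i).2 < 2 ^ (Sf m i).1 := by
    rw [h2]
    apply Nat.div_lt_of_lt_mul
    rw [← pow_add]
    have : m - (Sf m i).1 + (Sf m i).1 = m := by omega
    rwa [this]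
  refine ⟨⟨lt_of_le_of_lt h1 hm, lt_of_lt_of_le h3 (Nat.pow_le_pow_right (by norm_num) ?_)⟩, h3⟩
  omega

/-- number of descendants -/
theorem count_le (m a b : ℕ) (ham : a ≤ m) :
    ∑ i ∈ range (2 ^ m), (if i / 2 ^ (m - a) = b then (1 : ℝ) / 2 ^ m else 0) ≤ 1 / 2 ^ a := by
  have e : (2 : ℕ) ^ m = 2 ^ a * 2 ^ (m - a) := by
    rw [← pow_add]; congr 1; omega
  rw [e, sum_blocks]
  have h1 : ∀ i ∈ range (2 ^ a), ∑ k ∈ range (2 ^ (m - a)),
      (if (i * 2 ^ (m - a) + k) / 2 ^ (m - a) = b then (1 : ℝ) / 2 ^ m else 0) =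
      if i = b then (2 : ℝ) ^ (m - a) * (1 / 2 ^ m) else 0 := by
    intro i _
    have h2 : ∀ k ∈ range (2 ^ (m - a)),
        (if (i * 2 ^ (m - a) + k) / 2 ^ (m - a) = b then (1 : ℝ) / 2 ^ m else 0) =
        if i = b then (1 : ℝ) / 2 ^ m else 0 := by
      intro k hk
      rw [mem_range] at hk
      have : (i * 2 ^ (m - a) + k) / 2 ^ (m - a) = i := by
        rw [mul_comm, Nat.mul_add_div (by positivity), Nat.div_eq_of_lt hk, add_zero]
      rw [this]
    rw [sum_congr rfl h2]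
    split_ifs
    · rw [sum_const, card_range, nsmul_eq_mul]; push_cast; ring
    · simp
  rw [sum_congr rfl h1, sum_ite_eq']
  have e2 : (2 : ℝ) ^ m = 2 ^ a * 2 ^ (m - a) := by
    rw [← pow_add]; congr 1; omega
  split_ifs
  · rw [e2]; apply le_of_eq; field_simp
  · positivity

theorem holder_le {r : ℝ} (hr : 1 < r) (hr2 : r < 2) {N : ℕ} {β : ℕ → ℕ → ℂ}
    {Sf : ℕ → ℕ → ℕ × ℕ} {lam : ℕ × ℕ → ℝ} {Λ : ℝ}
    (h : Stop r N β Sf lam Λ) (S : ℕ × ℕ) (m : ℕ) (hm : m < N) :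
    ∑ i ∈ range (2 ^ m), (if Sf m i = S then ‖β m i‖ ^ r / 2 ^ m else 0) ≤
      if S.1 ≤ m then lam S else 0 := by
  split_ifs with hS
  · have h1 := Real.inner_le_weight_mul_Lp_of_nonneg (range (2 ^ m)) (p := 2 / r)
      (by rw [le_div_iff₀ (by linarith)]; linarith)
      (fun i => if Sf m i = S then (1 : ℝ) / 2 ^ m else 0) (fun i => ‖β m i‖ ^ r)
      (fun i => by split_ifs <;> positivity) (fun i => by positivity)
    have e1 : ∀ i ∈ range (2 ^ m), (if Sf m i = S then ‖β m i‖ ^ r / 2 ^ m else 0) =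
        (if Sf m i = S then (1 : ℝ) / 2 ^ m else 0) * ‖β m i‖ ^ r := by
      intro i _
      split_ifs <;> ring
    have e2 : ∀ i ∈ range (2 ^ m), (if Sf m i = S then (1 : ℝ) / 2 ^ m else 0) *
        (‖β m i‖ ^ r) ^ (2 / r) = if Sf m i = S then ‖β m i‖ ^ 2 / 2 ^ m else 0 := by
      intro i _
      have : (‖β m i‖ ^ r) ^ (2 / r) = ‖β m i‖ ^ 2 := by
        rw [← Real.rpow_mul (norm_nonneg _)]
        have : r * (2 / r) = 2 := by field_simp
        rw [this]; norm_cast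
      rw [this]
      split_ifs <;> ring
    rw [sum_congr rfl e1]
    refine le_trans h1 ?_
    rw [sum_congr rfl e2]
    have e3 : (2 / r : ℝ)⁻¹ = r / 2 := by rw [inv_div]
    rw [e3]
    have h2 : ∑ i ∈ range (2 ^ m), (if Sf m i = S then (1 : ℝ) / 2 ^ m else 0) ≤ 1 / 2 ^ S.1 := by
      refine le_trans (sum_le_sum fun i hi => ?_) (count_le m S.1 S.2 hS)
      by_cases hA : Sf m i = S
      · have := (h.anc m i hm (mem_range.mp hi)).2
        rw [hA] at this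
        rw [if_pos hA, if_pos this.symm]
      · rw [if_neg hA]; split_ifs <;> positivity
    have h2n : 0 ≤ ∑ i ∈ range (2 ^ m), (if Sf m i = S then (1 : ℝ) / 2 ^ m else 0) :=
      sum_nonneg fun i _ => by split_ifs <;> positivity
    have h3n : 0 ≤ ∑ i ∈ range (2 ^ m), (if Sf m i = S then ‖β m i‖ ^ 2 / 2 ^ m else 0) :=
      sum_nonneg fun i _ => by split_ifs <;> positivity
    have h3 : ∑ i ∈ range (2 ^ m), (if Sf m i = S then ‖β m i‖ ^ 2 / 2 ^ m else 0) ≤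
        TS N β Sf S := by
      unfold TS
      exact single_le_sum (f := fun m => ∑ i ∈ range (2 ^ m),
        (if Sf m i = S then ‖β m i‖ ^ 2 / 2 ^ m else 0))
        (fun m _ => sum_nonneg fun i _ => by split_ifs <;> positivity) (mem_range.mpr hm)
    have h4 := Real.rpow_le_rpow h2n h2 (by linarith : 0 ≤ 1 - r / 2)
    have h5 := Real.rpow_le_rpow h3n h3 (by linarith : 0 ≤ r / 2)
    refine le_trans (mul_le_mul h4 h5 (by positivity) (by positivity)) ?_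
    refine le_trans (le_of_eq ?_) (h.mass S)
    have e4 : ((1 : ℝ) / 2 ^ S.1) ^ (1 - r / 2) = 2 ^ (-(S.1 : ℝ) * (1 - r / 2)) := by
      rw [one_div, ← Real.rpow_natCast, ← Real.rpow_neg (by norm_num),
        ← Real.rpow_mul (by norm_num)]
    rw [e4]
    rfl
  · refine le_of_eq (sum_eq_zero fun i hi => ?_)
    rw [if_neg]
    intro h'
    have := (h.anc m i hm (mem_range.mp hi)).1
    rw [h'] at this
    exact hS this

/-- the part of the descendants of small depth -/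
theorem shallow_le {r : ℝ} (hr : 1 < r) (hr2 : r < 2) {N : ℕ} {β : ℕ → ℕ → ℂ}
    {Sf : ℕ → ℕ → ℕ × ℕ} {lam : ℕ × ℕ → ℝ} {Λ : ℝ}
    (h : Stop r N β Sf lam Λ) (D : ℕ) :
    ∑ m ∈ range N, ∑ i ∈ range (2 ^ m),
      (if m < (Sf m i).1 + D then ‖β m i‖ ^ r / 2 ^ m else 0) ≤ D * Λ := by
  have h1 : ∀ m ∈ range N, ∀ i ∈ range (2 ^ m),
      (if m < (Sf m i).1 + D then ‖β m i‖ ^ r / 2 ^ m else 0) =
      ∑ S ∈ Lab N, if Sf m i = S then (if m < S.1 + D then ‖β m i‖ ^ r / 2 ^ m else 0) else 0 := by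
    intro m hm i hi
    rw [sum_ite_eq, if_pos (Sf_mem h m i (mem_range.mp hm) (mem_range.mp hi))]
  rw [sum_congr rfl fun m hm => sum_congr rfl (h1 m hm)]
  have h2 : ∀ m ∈ range N, ∑ i ∈ range (2 ^ m), ∑ S ∈ Lab N,
      (if Sf m i = S then (if m < S.1 + D then ‖β m i‖ ^ r / 2 ^ m else 0) else 0) ≤
      ∑ S ∈ Lab N, if S.1 ≤ m ∧ m < S.1 + D then lam S else 0 := by
    intro m hm
    rw [sum_comm]
    refine sum_le_sum fun S _ => ?_
    have h3 := holder_le hr hr2 h S m (mem_range.mp hm)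
    by_cases hD : m < S.1 + D
    · simp only [hD, if_true, and_true]
      exact h3
    · simp [hD]
  refine le_trans (sum_le_sum h2) ?_
  rw [sum_comm]
  have h4 : ∀ S ∈ Lab N, ∑ m ∈ range N, (if S.1 ≤ m ∧ m < S.1 + D then lam S else 0) ≤
      D * lam S := by
    intro S _
    have h5 : ∑ m ∈ range N, (if S.1 ≤ m ∧ m < S.1 + D then lam S else 0) ≤
        ∑ m ∈ Ico S.1 (S.1 + D), lam S := by
      refine le_trans ?_ (sum_inj_le (range N) (Ico S.1 (S.1 + D))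
        (fun m => S.1 ≤ m ∧ m < S.1 + D) id (fun _ => lam S) (fun _ _ => h.nonneg S) ?_ ?_)
      · exact le_rfl
      · intro m _ hm; simpa using hm
      · intro i _ _ i' _ _ hii; exact hii
    refine le_trans h5 (le_of_eq ?_)
    rw [sum_const, Nat.card_Ico, nsmul_eq_mul]
    congr 2
    omega
  refine le_trans (sum_le_sum h4) ?_
  rw [← mul_sum]
  exact mul_le_mul_of_nonneg_left h.total (Nat.cast_nonneg _)

/-- restriction to one point of every block -/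
theorem level_le (F : ℕ → ℝ) (hF : ∀ i, 0 ≤ F i) (l D e : ℕ) (he : e < 2 ^ D) :
    ∑ j ∈ range (2 ^ l), F (j * 2 ^ D + e) ≤ ∑ i ∈ range (2 ^ (l + D)), F i := by
  rw [pow_add, sum_blocks]
  refine sum_le_sum fun j _ => ?_
  exact single_le_sum (f := fun k => F (j * 2 ^ D + k)) (fun k _ => hF _) (mem_range.mpr he)

theorem shift_le (G : ℕ → ℝ) (hG : ∀ i, 0 ≤ G i) (s : Finset ℕ) (N D : ℕ) :
    ∑ l ∈ s, (if l + D < N then G (l + D) else 0) ≤ ∑ m ∈ range N, G m :=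
  sum_inj_le s (range N) (fun l => l + D < N) (fun l => l + D) G (fun k _ => hG k)
    (fun l _ h => mem_range.mpr h) (fun i _ _ i' _ _ h => by simpa using h)

theorem two_level_le (F : ℕ → ℕ → ℝ) (hF : ∀ m i, 0 ≤ F m i) (s : Finset ℕ) (N D e : ℕ)
    (he : e < 2 ^ D) :
    ∑ l ∈ s, ∑ j ∈ range (2 ^ l), (if l + D < N then F (l + D) (j * 2 ^ D + e) else 0) ≤
      ∑ m ∈ range N, ∑ i ∈ range (2 ^ m), F m i := by
  refine le_trans (sum_le_sum fun l _ => ?_)
    (shift_le (fun m => ∑ i ∈ range (2 ^ m), F m i) (fun m => sum_nonneg fun i _ => hF m i) s N D)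
  split_ifs with h
  · exact level_le (F (l + D)) (hF _) l D e he
  · simp

/-- first relabelled sum -/
theorem ssumI : SSumI := by
  intro r hr hr2
  refine ⟨1, one_pos, ?_⟩
  intro N L D e β Sf lam Λ h he
  -- the second class
  set b : ℕ × ℕ → ℝ := fun S =>
    if S.1 + D < N ∧ S.2 < 2 ^ S.1 ∧ S.1 < (Sf (S.1 + D) (S.2 * 2 ^ D + e)).1 then
      ‖β (S.1 + D) (S.2 * 2 ^ D + e)‖ ^ 2 / 2 ^ S.1 else 0 with hb
  have hb0 : ∀ S, 0 ≤ b S := by
    intro S; rw [hb]; dsimp only; split_ifs <;> positivity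
  have key : ∀ S : ℕ × ℕ, ∑ l ∈ Ico 3 L, ∑ j ∈ range (2 ^ l + 1),
      (if (if (Sf (l + D) (j * 2 ^ D + e)).1 ≤ l then Sf (l + D) (j * 2 ^ D + e) else (l, j)) = S
        then ‖(if l + D < N ∧ j < 2 ^ l then β (l + D) (j * 2 ^ D + e) else 0)‖ ^ 2 / 2 ^ l
        else 0) ≤ 2 ^ D * TS N β Sf S + b S := by
    intro S
    have t1 : ∑ l ∈ Ico 3 L, ∑ j ∈ range (2 ^ l), (if l + D < N then
        (if Sf (l + D) (j * 2 ^ D + e) = S then
          ‖β (l + D) (j * 2 ^ D + e)‖ ^ 2 / 2 ^ (l + D) else 0) else 0) ≤ TS N β Sf S :=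
      two_level_le (fun m i => if Sf m i = S then ‖β m i‖ ^ 2 / 2 ^ m else 0)
        (fun m i => by split_ifs <;> positivity) (Ico 3 L) N D e he
    have t2 : ∑ l ∈ Ico 3 L, ∑ j ∈ range (2 ^ l + 1), (if ((l, j) : ℕ × ℕ) = S then b S else 0) ≤
        b S := by
      have t3 : ∀ l ∈ Ico 3 L, ∑ j ∈ range (2 ^ l + 1),
          (if ((l, j) : ℕ × ℕ) = S then b S else 0) ≤ if l = S.1 then b S else 0 := by
        intro l _
        have t4 : ∀ j ∈ range (2 ^ l + 1), (if ((l, j) : ℕ × ℕ) = S then b S else 0) =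
            if j = S.2 then (if l = S.1 then b S else 0) else 0 := by
          intro j _
          by_cases h1 : l = S.1
          · by_cases h2 : j = S.2
            · rw [if_pos (Prod.ext h1 h2), if_pos h2, if_pos h1]
            · rw [if_neg (fun h => h2 (by rw [← h])), if_neg h2]
          · rw [if_neg (fun h => h1 (by rw [← h])), if_neg h1, ite_self]
        rw [sum_congr rfl t4, sum_ite_eq']
        have := hb0 S
        split_ifs <;> first | exact le_rfl | exact this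
      refine le_trans (sum_le_sum t3) ?_
      rw [sum_ite_eq']
      have := hb0 S
      split_ifs <;> first | exact le_rfl | exact this
    have t5 : ∀ l ∈ Ico 3 L, ∑ j ∈ range (2 ^ l + 1),
      (if (if (Sf (l + D) (j * 2 ^ D + e)).1 ≤ l then Sf (l + D) (j * 2 ^ D + e) else (l, j)) = S
        then ‖(if l + D < N ∧ j < 2 ^ l then β (l + D) (j * 2 ^ D + e) else 0)‖ ^ 2 / 2 ^ l
        else 0) ≤
        2 ^ D * ∑ j ∈ range (2 ^ l), (if l + D < N then
        (if Sf (l + D) (j * 2 ^ D + e) = S then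
          ‖β (l + D) (j * 2 ^ D + e)‖ ^ 2 / 2 ^ (l + D) else 0) else 0) +
        ∑ j ∈ range (2 ^ l + 1), (if ((l, j) : ℕ × ℕ) = S then b S else 0) := by
      intro l _
      have t6 : 2 ^ D * ∑ j ∈ range (2 ^ l), (if l + D < N then
          (if Sf (l + D) (j * 2 ^ D + e) = S then
          ‖β (l + D) (j * 2 ^ D + e)‖ ^ 2 / 2 ^ (l + D) else 0) else 0) =
          ∑ j ∈ range (2 ^ l + 1), (if j < 2 ^ l ∧ l + D < N ∧
            Sf (l + D) (j * 2 ^ D + e) = S then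
          ‖β (l + D) (j * 2 ^ D + e)‖ ^ 2 / 2 ^ l else 0) := by
        rw [mul_sum, sum_range_succ, if_neg (by simp), add_zero]
        refine sum_congr rfl fun j hj => ?_
        have hj' := mem_range.mp hj
        by_cases h1 : l + D < N
        · by_cases h2 : Sf (l + D) (j * 2 ^ D + e) = S
          · rw [if_pos h1, if_pos h2, if_pos ⟨hj', h1, h2⟩, pow_add]
            field_simp
          · rw [if_pos h1, if_neg h2, if_neg (fun h => h2 h.2.2), mul_zero]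
        · rw [if_neg h1, if_neg (fun h => h1 h.2.1), mul_zero]
      rw [t6, ← sum_add_distrib]
      refine sum_le_sum fun j _ => ?_
      by_cases h1 : l + D < N ∧ j < 2 ^ l
      · by_cases h2 : (Sf (l + D) (j * 2 ^ D + e)).1 ≤ l
        · rw [if_pos h2, if_pos h1]
          by_cases h3 : Sf (l + D) (j * 2 ^ D + e) = S
          · rw [if_pos h3, if_pos ⟨h1.2, h1.1, h3⟩]
            have := hb0 S
            split_ifs <;> linarith
          · rw [if_neg h3, if_neg (fun h => h3 h.2.2)]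
            have := hb0 S
            split_ifs <;> linarith
        · rw [if_neg h2, if_pos h1]
          have hn : (0 : ℝ) ≤ (if j < 2 ^ l ∧ l + D < N ∧ Sf (l + D) (j * 2 ^ D + e) = S then
            ‖β (l + D) (j * 2 ^ D + e)‖ ^ 2 / 2 ^ l else 0) := by
            split_ifs <;> positivity
          by_cases h3 : ((l, j) : ℕ × ℕ) = S
          · rw [if_pos h3, if_pos h3]
            have h4 : b S = ‖β (l + D) (j * 2 ^ D + e)‖ ^ 2 / 2 ^ l := by
              rw [hb, ← h3]; dsimp only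
              rw [if_pos ⟨h1.1, h1.2, not_le.mp h2⟩]
            rw [h4]; linarith
          · rw [if_neg h3, if_neg h3]; linarith
      · rw [if_neg h1]
        have h2 : (0 : ℝ) ≤ (if j < 2 ^ l ∧ l + D < N ∧ Sf (l + D) (j * 2 ^ D + e) = S then
            ‖β (l + D) (j * 2 ^ D + e)‖ ^ 2 / 2 ^ l else 0) := by
          split_ifs <;> positivity
        have h3 : 0 ≤ (if ((l, j) : ℕ × ℕ) = S then b S else 0) := by
          have := hb0 S
          split_ifs <;> first | exact le_rfl | exact this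
        simp only [norm_zero]
        have h4 : ((0 : ℝ) ^ 2 / 2 ^ l) = 0 := by simp
        rw [h4, ite_self]
        linarith
    refine le_trans (sum_le_sum t5) ?_
    rw [sum_add_distrib, ← mul_sum]
    have := mul_le_mul_of_nonneg_left t1 (by positivity : (0 : ℝ) ≤ 2 ^ D)
    linarith
  have key2 : ∀ S : ℕ × ℕ, (2 : ℝ) ^ (-(S.1 : ℝ) * (1 - r / 2)) *
      (∑ l ∈ Ico 3 L, ∑ j ∈ range (2 ^ l + 1),
      (if (if (Sf (l + D) (j * 2 ^ D + e)).1 ≤ l then Sf (l + D) (j * 2 ^ D + e) else (l, j)) = S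
        then ‖(if l + D < N ∧ j < 2 ^ l then β (l + D) (j * 2 ^ D + e) else 0)‖ ^ 2 / 2 ^ l
        else 0)) ^ (r / 2) ≤ 2 ^ D * lam S +
      (if S.1 + D < N ∧ S.2 < 2 ^ S.1 ∧ S.1 < (Sf (S.1 + D) (S.2 * 2 ^ D + e)).1 then
      ‖β (S.1 + D) (S.2 * 2 ^ D + e)‖ ^ r / 2 ^ S.1 else 0) := by
    intro S
    have hX0 : 0 ≤ ∑ l ∈ Ico 3 L, ∑ j ∈ range (2 ^ l + 1),
      (if (if (Sf (l + D) (j * 2 ^ D + e)).1 ≤ l then Sf (l + D) (j * 2 ^ D + e) else (l, j)) = S
        then ‖(if l + D < N ∧ j < 2 ^ l then β (l + D) (j * 2 ^ D + e) else 0)‖ ^ 2 / 2 ^ l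
        else 0) := by
      refine sum_nonneg fun l _ => sum_nonneg fun j _ => ?_
      by_cases h1 : (if (Sf (l + D) (j * 2 ^ D + e)).1 ≤ l then Sf (l + D) (j * 2 ^ D + e)
        else (l, j)) = S
      · rw [if_pos h1]; positivity
      · rw [if_neg h1]
    have h1 := Real.rpow_le_rpow hX0 (key S) (by linarith : 0 ≤ r / 2)
    have hT := TS_nonneg N β Sf S
    have h2 := Real.rpow_add_le_add_rpow (p := r / 2)
      (by positivity : 0 ≤ 2 ^ D * TS N β Sf S) (hb0 S) (by linarith) (by linarith)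
    have h3 : (2 ^ D * TS N β Sf S) ^ (r / 2) ≤ 2 ^ D * TS N β Sf S ^ (r / 2) := by
      rw [Real.mul_rpow (by positivity) hT]
      refine mul_le_mul_of_nonneg_right ?_ (by positivity)
      calc ((2 : ℝ) ^ D) ^ (r / 2) ≤ ((2 : ℝ) ^ D) ^ (1 : ℝ) :=
            Real.rpow_le_rpow_of_exponent_le (one_le_pow₀ (by norm_num)) (by linarith)
        _ = 2 ^ D := by rw [Real.rpow_one]
    have h4 := h.mass S
    have hp : (0 : ℝ) ≤ 2 ^ (-(S.1 : ℝ) * (1 - r / 2)) := by positivity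
    have h5 : (2 : ℝ) ^ (-(S.1 : ℝ) * (1 - r / 2)) * b S ^ (r / 2) =
      (if S.1 + D < N ∧ S.2 < 2 ^ S.1 ∧ S.1 < (Sf (S.1 + D) (S.2 * 2 ^ D + e)).1 then
      ‖β (S.1 + D) (S.2 * 2 ^ D + e)‖ ^ r / 2 ^ S.1 else 0) := by
      rw [hb]; dsimp only
      split_ifs with hc
      · rw [Real.div_rpow (by positivity) (by positivity)]
        have e1 : (‖β (S.1 + D) (S.2 * 2 ^ D + e)‖ ^ 2) ^ (r / 2) =
            ‖β (S.1 + D) (S.2 * 2 ^ D + e)‖ ^ r := by
          rw [← Real.rpow_natCast, ← Real.rpow_mul (norm_nonneg _)]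
          congr 1; push_cast; ring
        have e2 : ((2 : ℝ) ^ S.1) ^ (r / 2) = 2 ^ ((S.1 : ℝ) * (r / 2)) := by
          rw [← Real.rpow_natCast, ← Real.rpow_mul (by norm_num)]
        have e3 : (2 : ℝ) ^ S.1 = 2 ^ (S.1 : ℝ) := by rw [Real.rpow_natCast]
        have e4 : (2 : ℝ) ^ (-(S.1 : ℝ) * (1 - r / 2)) =
            2 ^ ((S.1 : ℝ) * (r / 2)) / 2 ^ (S.1 : ℝ) := by
          rw [← Real.rpow_sub (by norm_num)]
          congr 1; ring
        rw [e1, e2, e3, e4]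
        field_simp
      · rw [Real.zero_rpow (by linarith), mul_zero]
    have h6 : (2 : ℝ) ^ (-(S.1 : ℝ) * (1 - r / 2)) * (2 ^ D * TS N β Sf S ^ (r / 2)) ≤
        2 ^ D * lam S := by
      have : (2 : ℝ) ^ (-(S.1 : ℝ) * (1 - r / 2)) * (2 ^ D * TS N β Sf S ^ (r / 2)) =
        2 ^ D * ((2 : ℝ) ^ (-(S.1 : ℝ) * (1 - r / 2)) * TS N β Sf S ^ (r / 2)) := by ring
      rw [this]
      exact mul_le_mul_of_nonneg_left h4 (by positivity)
    calc _ ≤ (2 : ℝ) ^ (-(S.1 : ℝ) * (1 - r / 2)) *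
          (2 ^ D * TS N β Sf S ^ (r / 2) + b S ^ (r / 2)) :=
            mul_le_mul_of_nonneg_left (by linarith) hp
      _ = (2 : ℝ) ^ (-(S.1 : ℝ) * (1 - r / 2)) * (2 ^ D * TS N β Sf S ^ (r / 2)) +
          (2 : ℝ) ^ (-(S.1 : ℝ) * (1 - r / 2)) * b S ^ (r / 2) := by ring
      _ ≤ _ := by rw [h5]; linarith
  unfold RR
  refine le_trans (sum_le_sum fun S _ => key2 S) ?_
  rw [sum_add_distrib, ← mul_sum]
  have h7 : ∑ S ∈ Lab N, (if S.1 + D < N ∧ S.2 < 2 ^ S.1 ∧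
      S.1 < (Sf (S.1 + D) (S.2 * 2 ^ D + e)).1 then
      ‖β (S.1 + D) (S.2 * 2 ^ D + e)‖ ^ r / 2 ^ S.1 else 0) ≤ 2 ^ D * (D * Λ) := by
    rw [sum_Lab]
    have h8 := two_level_le (fun m i => if m < (Sf m i).1 + D then ‖β m i‖ ^ r / 2 ^ m else 0)
      (fun m i => by split_ifs <;> positivity) (range N) N D e he
    refine le_trans ?_ (mul_le_mul_of_nonneg_left (le_trans h8 (shallow_le hr hr2 h D))
      (by positivity))
    rw [mul_sum]
    refine sum_le_sum fun l _ => ?_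
    rw [mul_sum]
    refine sum_le_sum fun j hj => ?_
    dsimp only
    by_cases h1 : l + D < N ∧ j < 2 ^ l ∧ l < (Sf (l + D) (j * 2 ^ D + e)).1
    · rw [if_pos h1, if_pos h1.1, if_pos (by omega), pow_add]
      apply le_of_eq
      field_simp
    · rw [if_neg h1]
      apply mul_nonneg (by positivity)
      split_ifs <;> positivity
  have h9 := mul_le_mul_of_nonneg_left h.total (by positivity : (0 : ℝ) ≤ 2 ^ D)
  calc _ ≤ 2 ^ D * Λ + 2 ^ D * (D * Λ) := by linarith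
    _ = _ := by ring

/-- second relabelled sum -/
theorem ssumII : SSumII := by
  intro r hr hr2
  refine ⟨1, one_pos, ?_⟩
  intro N L D ε β Sf lam Λ h _
  have key : ∀ S : ℕ × ℕ, ∑ l ∈ Ico 3 L, ∑ j ∈ range (2 ^ l + 1),
      (if Sf (l - (D + 1)) ((j - ε * 2 ^ D) / 2 ^ (D + 1)) = S then
        ‖(if D + 1 ≤ l ∧ l - (D + 1) < N ∧ ε * 2 ^ D ≤ j ∧
        (j - ε * 2 ^ D) % 2 ^ (D + 1) = 0 ∧ (j - ε * 2 ^ D) / 2 ^ (D + 1) < 2 ^ (l - (D + 1))
      then β (l - (D + 1)) ((j - ε * 2 ^ D) / 2 ^ (D + 1)) else 0)‖ ^ 2 / 2 ^ l else 0) ≤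
      TS N β Sf S / 2 ^ D := by
    intro S
    have t1 : ∀ l ∈ Ico 3 L, ∑ j ∈ range (2 ^ l + 1),
      (if Sf (l - (D + 1)) ((j - ε * 2 ^ D) / 2 ^ (D + 1)) = S then
        ‖(if D + 1 ≤ l ∧ l - (D + 1) < N ∧ ε * 2 ^ D ≤ j ∧
        (j - ε * 2 ^ D) % 2 ^ (D + 1) = 0 ∧ (j - ε * 2 ^ D) / 2 ^ (D + 1) < 2 ^ (l - (D + 1))
      then β (l - (D + 1)) ((j - ε * 2 ^ D) / 2 ^ (D + 1)) else 0)‖ ^ 2 / 2 ^ l else 0) ≤
      if D + 1 ≤ l ∧ l - (D + 1) < N then (∑ i ∈ range (2 ^ (l - (D + 1))),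
        (if Sf (l - (D + 1)) i = S then ‖β (l - (D + 1)) i‖ ^ 2 / 2 ^ (l - (D + 1)) else 0)) / 2 ^ D
      else 0 := by
      intro l _
      by_cases h1 : D + 1 ≤ l ∧ l - (D + 1) < N
      · rw [if_pos h1]
        set m := l - (D + 1) with hm
        have hl : (2 : ℝ) ^ l = 2 ^ m * 2 ^ (D + 1) := by
          rw [← pow_add]; congr 1; omega
        have t2 := sum_inj_le (range (2 ^ l + 1)) (range (2 ^ m))
          (fun j => ε * 2 ^ D ≤ j ∧
            (j - ε * 2 ^ D) % 2 ^ (D + 1) = 0 ∧ (j - ε * 2 ^ D) / 2 ^ (D + 1) < 2 ^ m)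
          (fun j => (j - ε * 2 ^ D) / 2 ^ (D + 1))
          (fun i => if Sf m i = S then ‖β m i‖ ^ 2 / 2 ^ m else 0)
          (fun i _ => by split_ifs <;> positivity)
          (fun j _ hj => mem_range.mpr hj.2.2)
          (by
            intro i _ hi i' _ hi' hii
            have e1 := Nat.div_add_mod (i - ε * 2 ^ D) (2 ^ (D + 1))
            have e2 := Nat.div_add_mod (i' - ε * 2 ^ D) (2 ^ (D + 1))
            rw [hi.2.1] at e1
            rw [hi'.2.1] at e2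
            rw [hii] at e1
            have := hi.1
            have := hi'.1
            omega)
        have t3 := div_le_div_of_nonneg_right t2 (by positivity : (0 : ℝ) ≤ 2 ^ D)
        refine le_trans ?_ t3
        rw [sum_div]
        refine sum_le_sum fun j _ => ?_
        by_cases h2 : ε * 2 ^ D ≤ j ∧
            (j - ε * 2 ^ D) % 2 ^ (D + 1) = 0 ∧ (j - ε * 2 ^ D) / 2 ^ (D + 1) < 2 ^ m
        · rw [if_pos h2]
          by_cases h3 : Sf m ((j - ε * 2 ^ D) / 2 ^ (D + 1)) = S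
          · rw [if_pos h3, if_pos h3, if_pos ⟨h1.1, h1.2, h2⟩, hl, div_div]
            apply div_le_div_of_nonneg_left (by positivity) (by positivity)
            apply mul_le_mul_of_nonneg_left _ (by positivity)
            exact pow_le_pow_right₀ (by norm_num) (by omega)
          · rw [if_neg h3, if_neg h3]; simp
        · have h4 : ¬ (D + 1 ≤ l ∧ m < N ∧ ε * 2 ^ D ≤ j ∧
              (j - ε * 2 ^ D) % 2 ^ (D + 1) = 0 ∧ (j - ε * 2 ^ D) / 2 ^ (D + 1) < 2 ^ m) :=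
            fun h => h2 h.2.2
          rw [if_neg h2, if_neg h4]
          simp
      · rw [if_neg h1]
        refine le_of_eq (sum_eq_zero fun j _ => ?_)
        have h4 : ¬ (D + 1 ≤ l ∧ l - (D + 1) < N ∧ ε * 2 ^ D ≤ j ∧
              (j - ε * 2 ^ D) % 2 ^ (D + 1) = 0 ∧
              (j - ε * 2 ^ D) / 2 ^ (D + 1) < 2 ^ (l - (D + 1))) :=
            fun h => h1 ⟨h.1, h.2.1⟩
        rw [if_neg h4]
        simp
    refine le_trans (sum_le_sum t1) ?_
    unfold TS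
    rw [sum_div]
    exact sum_inj_le (Ico 3 L) (range N) (fun l => D + 1 ≤ l ∧ l - (D + 1) < N)
      (fun l => l - (D + 1)) (fun m => (∑ i ∈ range (2 ^ m),
        (if Sf m i = S then ‖β m i‖ ^ 2 / 2 ^ m else 0)) / 2 ^ D)
      (fun m _ => div_nonneg (sum_nonneg fun i _ => by split_ifs <;> positivity) (by positivity))
      (fun l _ hl => mem_range.mpr hl.2)
      (by intro i _ hi i' _ hi' hii; have := hi.1; have := hi'.1; omega)
  unfold RR
  rw [one_mul]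
  have key2 : ∀ S ∈ Lab N, (2 : ℝ) ^ (-(S.1 : ℝ) * (1 - r / 2)) *
      (∑ l ∈ Ico 3 L, ∑ j ∈ range (2 ^ l + 1),
      (if Sf (l - (D + 1)) ((j - ε * 2 ^ D) / 2 ^ (D + 1)) = S then
        ‖(if D + 1 ≤ l ∧ l - (D + 1) < N ∧ ε * 2 ^ D ≤ j ∧
        (j - ε * 2 ^ D) % 2 ^ (D + 1) = 0 ∧ (j - ε * 2 ^ D) / 2 ^ (D + 1) < 2 ^ (l - (D + 1))
      then β (l - (D + 1)) ((j - ε * 2 ^ D) / 2 ^ (D + 1)) else 0)‖ ^ 2 / 2 ^ l else 0)) ^ (r / 2) ≤
      (2 : ℝ) ^ (-(D : ℝ) * (r / 2)) * lam S := by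
    intro S _
    have hX0 : 0 ≤ ∑ l ∈ Ico 3 L, ∑ j ∈ range (2 ^ l + 1),
      (if Sf (l - (D + 1)) ((j - ε * 2 ^ D) / 2 ^ (D + 1)) = S then
        ‖(if D + 1 ≤ l ∧ l - (D + 1) < N ∧ ε * 2 ^ D ≤ j ∧
        (j - ε * 2 ^ D) % 2 ^ (D + 1) = 0 ∧ (j - ε * 2 ^ D) / 2 ^ (D + 1) < 2 ^ (l - (D + 1))
      then β (l - (D + 1)) ((j - ε * 2 ^ D) / 2 ^ (D + 1)) else 0)‖ ^ 2 / 2 ^ l else 0) := by
      refine sum_nonneg fun l _ => sum_nonneg fun j _ => ?_
      by_cases h1 : Sf (l - (D + 1)) ((j - ε * 2 ^ D) / 2 ^ (D + 1)) = S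
      · rw [if_pos h1]; positivity
      · rw [if_neg h1]
    have h1 := Real.rpow_le_rpow hX0 (key S) (by linarith : 0 ≤ r / 2)
    have hT := TS_nonneg N β Sf S
    have h2 : (TS N β Sf S / 2 ^ D) ^ (r / 2) =
        2 ^ (-(D : ℝ) * (r / 2)) * TS N β Sf S ^ (r / 2) := by
      rw [Real.div_rpow hT (by positivity), ← Real.rpow_natCast, ← Real.rpow_mul (by norm_num),
        neg_mul, Real.rpow_neg (by norm_num)]
      field_simp
    rw [h2] at h1
    have h4 := h.mass S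
    have hp : (0 : ℝ) ≤ 2 ^ (-(S.1 : ℝ) * (1 - r / 2)) := by positivity
    refine le_trans (mul_le_mul_of_nonneg_left h1 hp) ?_
    have e1 : (2 : ℝ) ^ (-(S.1 : ℝ) * (1 - r / 2)) *
        (2 ^ (-(D : ℝ) * (r / 2)) * TS N β Sf S ^ (r / 2)) = 2 ^ (-(D : ℝ) * (r / 2)) *
        ((2 : ℝ) ^ (-(S.1 : ℝ) * (1 - r / 2)) * TS N β Sf S ^ (r / 2)) := by ring
    rw [e1]
    exact mul_le_mul_of_nonneg_left h4 (by positivity)
  refine le_trans (sum_le_sum key2) ?_
  rw [← mul_sum]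
  exact mul_le_mul_of_nonneg_left h.total (by positivity)

end Pool.Agent.W704.EMS
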